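import Pool.Agent.Lib.MP_813db1_ag.AS.All2

/-! Compact Kaehler manifolds with nef canonical bundle and a two-form of nonzero volume whose
class comes from a group with no infinite finitely generated abelian commensurated subgroup:
the canonical bundle is big. -/

namespace Pool.Agent.Results.MP_813db1_ag.BigOrAbelian

open Filter Pool.Agent.Lib.MP_813db1_ag.HS Pool.Agent.Lib.MP_813db1_ag.AS
open scoped ContDiff Manifold

theorem result (n : ℕ) (hn : 0 < n) (X Y G : Type) [TopologicalSpace X] [T2Space X]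
    [CompactSpace X] [ConnectedSpace X] [MeasurableSpace X] [BorelSpace X]
    [ChartedSpace (Fin n → ℂ) X] [IsManifold 𝓘(ℂ, Fin n → ℂ) ω X] [TopologicalSpace Y]
    [ConnectedSpace Y] [Group G] [MulAction G Y] (K : Kahler (Fin n) X) (p : Y → X)
    (hp : IsQuotientCoveringMap p G) (hK : NefK K) (hβ : Ess G K p) (hG : NoAb G) :
    ∃ c : ℝ, 0 < c ∧ ∀ᶠ a : ℕ in atTop, ∃ (Q : ℕ)
      (s : Fin Q → OpenPartialHomeomorph X (Fin n → ℂ) → (Fin n → ℂ) → ℂ),
      c * (a : ℝ) ^ n ≤ Q ∧ (∀ j, IsPluri a (s j)) ∧ Indep s := by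
  have : Nonempty (Fin n) := ⟨⟨0, hn⟩⟩
  simpa only [Fintype.card_fin] using mainAll2 (Fin n) X Y G K p hp hK hβ (Or.inl hG)

end Pool.Agent.Results.MP_813db1_ag.BigOrAbelian
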