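import Pool.Agent.Lib.MP_813db1_ag.VH.E1.Glue
import Pool.Agent.Lib.MP_813db1_ag.PB.Pull

/-! Complex manifolds with a dominant meromorphic map to a compact Kaehler manifold of the same
dimension whose Kaehler form is exact on the universal covering: the Kodaira dimension is at least
the numerical dimension of the canonical class of the target. -/

namespace Pool.Agent.Results.MP_813db1_ag.ExactClassC

open Filter MeasureTheory Pool.Agent.Lib.MP_813db1_ag Pool.Agent.Lib.MP_813db1_ag.HS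
  Pool.Agent.Lib.MP_813db1_ag.AS
open scoped ContDiff Manifold

theorem result (n : ℕ) (hn : 0 < n) (X Y G W : Type) [TopologicalSpace X] [T2Space X]
    [CompactSpace X] [ConnectedSpace X] [MeasurableSpace X] [BorelSpace X]
    [ChartedSpace (Fin n → ℂ) X] [IsManifold 𝓘(ℂ, Fin n → ℂ) ω X] [TopologicalSpace Y]
    [SimplyConnectedSpace Y] [Group G] [MulAction G Y] (K : Kahler (Fin n) X) (p : Y → X)
    (hp : IsQuotientCoveringMap p G) (hω : Exact K p)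
    [TopologicalSpace W] [ChartedSpace (Fin n → ℂ) W] [IsManifold 𝓘(ℂ, Fin n → ℂ) ω W]
    (A : Set W) (hA : IsClosed A)
    (hnull : ∀ e ∈ atlas (Fin n → ℂ) W, μH[2 * (n : ℝ) - 2] (e '' (A ∩ e.source)) = 0)
    (f : W → X) (hf : MDifferentiableOn 𝓘(ℂ, Fin n → ℂ) 𝓘(ℂ, Fin n → ℂ) f Aᶜ)
    (w : W) (hw : w ∉ A)
    (hdet : (jac (chartAt (Fin n → ℂ) (f w) ∘ f ∘ (chartAt (Fin n → ℂ) w).symm)
      (chartAt (Fin n → ℂ) w w)).det ≠ 0) :
    ∃ N : ℕ, 0 < N ∧ ∃ c : ℝ, 0 < c ∧ ∀ᶠ a : ℕ in atTop, ∃ (Q : ℕ)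
      (s : Fin Q → OpenPartialHomeomorph W (Fin n → ℂ) → (Fin n → ℂ) → ℂ),
      c * (a : ℝ) ^ K.numDim ≤ Q ∧ (∀ j, IsPluri (N * a) (s j)) ∧ Indep s := by
  have : Nonempty (Fin n) := ⟨⟨0, hn⟩⟩
  obtain ⟨N, hN, c, hc, h⟩ := VH.E1.abund1 K hp hω
  refine ⟨N, hN, c, hc, h.mono ?_⟩
  rintro a ⟨Q, t, h1, h2, h3⟩
  obtain ⟨s, h4, h5⟩ := PB.pull (⟨0, hn⟩ : Fin n) hA (by simpa using hnull) hf hw hdet h2 h3
  exact ⟨Q, s, h1, h4, h5⟩

end Pool.Agent.Results.MP_813db1_ag.ExactClassC
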