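import Pool.Agent.Lib.MP_813db1_ag.HS.All

/-! Compact Kaehler manifolds with seminegative holomorphic sectional curvature: the Kodaira
dimension is at least the numerical dimension of the canonical class. -/

namespace Pool.Agent.Results.MP_813db1_ag.SemiNegHSC

open Filter Pool.Agent.Lib.MP_813db1_ag.HS
open scoped ContDiff Manifold

theorem result (n : ℕ) (X : Type) [TopologicalSpace X] [T2Space X] [CompactSpace X]
    [ConnectedSpace X] [MeasurableSpace X] [BorelSpace X] [ChartedSpace (Fin n → ℂ) X]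
    [IsManifold 𝓘(ℂ, Fin n → ℂ) ω X] (K : Kahler (Fin n) X) (hK : K.SemiNeg) :
    ∃ N : ℕ, 0 < N ∧ ∃ c : ℝ, 0 < c ∧ ∀ᶠ a : ℕ in atTop, ∃ (Q : ℕ)
      (s : Fin Q → OpenPartialHomeomorph X (Fin n → ℂ) → (Fin n → ℂ) → ℂ),
      c * (a : ℝ) ^ K.numDim ≤ Q ∧ (∀ j, IsPluri (N * a) (s j)) ∧ Indep s :=
  All.mainS (Fin n) X K hK

end Pool.Agent.Results.MP_813db1_ag.SemiNegHSC
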