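import Pool.Agent.Lib.MP_813db1_ag.SV.All

/-! Projective manifolds of positive spherical volume are of general type, with a lower bound for
the growth of the plurigenera whose constant depends only on the dimension. -/

namespace Pool.Agent.Results.MP_813db1_ag.SphericalVolume

open Filter MeasureTheory Pool.Agent.Lib.MP_813db1_ag.HS Pool.Agent.Lib.MP_813db1_ag.SV
open scoped ContDiff Manifold

theorem result (n : ℕ) (hn : 0 < n) : ∃ c : ℝ, 0 < c ∧ ∀ (X Y G : Type) [TopologicalSpace X]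
    [T2Space X] [CompactSpace X] [ConnectedSpace X] [MeasurableSpace X] [BorelSpace X]
    [ChartedSpace (Fin n → ℂ) X] [IsManifold 𝓘(ℂ, Fin n → ℂ) ω X] [TopologicalSpace Y]
    [ConnectedSpace Y] [Group G] [MulAction G Y] (K : Kahler (Fin n) X) (μ : Measure X)
    (p : Y → X) (v : ℝ), IsQuotientCoveringMap p G → Proj K → K.IsVol μ → 0 < v →
    SphGe G K μ p v → ∀ᶠ a : ℕ in atTop, ∃ (Q : ℕ)
      (s : Fin Q → OpenPartialHomeomorph X (Fin n → ℂ) → (Fin n → ℂ) → ℂ),
      c * v * (a : ℝ) ^ n ≤ Q ∧ (∀ j, IsPluri a (s j)) ∧ Indep s := by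
  have : Nonempty (Fin n) := ⟨⟨0, hn⟩⟩
  simpa only [Fintype.card_fin] using mainAll (Fin n)

end Pool.Agent.Results.MP_813db1_ag.SphericalVolume
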